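import Pool.Agent.H.MP_39b2af_an.Sp

namespace Pool.Agent.Results.MP_39b2af_an.Yes

open Filter Topology Pool.Agent.H.MP_39b2af_an
open scoped ENNReal

lemma lp_case {𝕜 : Type} [RCLike 𝕜] {lam : ℝ} (h0 : 0 < lam) (h1 : lam ≤ 1) (p : ℝ≥0∞)
    [hp : Fact (1 ≤ p)] (hp' : p ≠ ⊤) :
    ∃ T : lp (fun _ : ℕ => 𝕜) p →L[𝕜] lp (fun _ : ℕ => 𝕜) p,
      (∀ x n, (T x) n = (wt lam n : 𝕜) * x (n + 1)) ∧ ExactDC lam T := by
  have hp0 : 0 < p := zero_lt_one.trans_le hp.out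
  have hr : 0 < p.toReal := ENNReal.toReal_pos hp0.ne' hp'
  let π : lp (fun _ : ℕ => 𝕜) p →ₗ[𝕜] (ℕ → 𝕜) :=
    { toFun := fun x => x
      map_add' := fun _ _ => rfl
      map_smul' := fun _ _ => rfl }
  refine sp_main h0 h1 π (fun a b h => lp.ext h) (fun x n => lp.norm_apply_le_norm hp0.ne' x n) ?_
    (fun n => lp.single p n 1) (fun n => rfl) (fun n => by rw [lp.norm_single hp0]; simp) ?_
  · intro x y C j hC h
    have key : ∀ s : Finset ℕ, ∑ i ∈ s, ‖y i‖ ^ p.toReal ≤ (C * ‖x‖) ^ p.toReal := by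
      intro s
      calc ∑ i ∈ s, ‖y i‖ ^ p.toReal ≤ ∑ i ∈ s, C ^ p.toReal * ‖x (i + j)‖ ^ p.toReal := by
            refine Finset.sum_le_sum fun i _ => ?_
            rw [← Real.mul_rpow hC (norm_nonneg _)]
            exact Real.rpow_le_rpow (norm_nonneg _) (h i) hr.le
        _ = C ^ p.toReal * ∑ i ∈ s.map (addRightEmbedding j), ‖x i‖ ^ p.toReal := by
            rw [Finset.sum_map, Finset.mul_sum]; rfl
        _ ≤ _ := by
            rw [Real.mul_rpow hC (norm_nonneg _)]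
            exact mul_le_mul_of_nonneg_left (lp.sum_rpow_le_norm_rpow hr x _) (by positivity)
    exact ⟨⟨y, memℓp_gen' key⟩, rfl, lp.norm_le_of_forall_sum_le hr (by positivity) key⟩
  · intro x
    refine mem_closure_of_tendsto (lp.hasSum_single hp' x) (Eventually.of_forall fun s => ?_)
    refine Submodule.sum_mem _ fun i _ => ?_
    have : lp.single (E := fun _ : ℕ => 𝕜) p i (x i) = x i • lp.single p i 1 := by
      rw [← lp.single_smul]; simp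
    rw [this]
    exact Submodule.smul_mem _ _ (Submodule.subset_span ⟨i, rfl⟩)

lemma c0_case {𝕜 : Type} [RCLike 𝕜] {lam : ℝ} (h0 : 0 < lam) (h1 : lam ≤ 1) :
    ∃ T : ZeroAtInftyContinuousMap ℕ 𝕜 →L[𝕜] ZeroAtInftyContinuousMap ℕ 𝕜,
      (∀ x n, (T x) n = (wt lam n : 𝕜) * x (n + 1)) ∧ ExactDC lam T := by
  let π : ZeroAtInftyContinuousMap ℕ 𝕜 →ₗ[𝕜] (ℕ → 𝕜) :=
    { toFun := fun x => x
      map_add' := fun _ _ => rfl
      map_smul' := fun _ _ => rfl }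
  have hcc : cocompact ℕ = atTop := by rw [cocompact_eq_cofinite, Nat.cofinite_eq_atTop]
  have hz : ∀ x : ZeroAtInftyContinuousMap ℕ 𝕜, Tendsto x atTop (𝓝 0) := fun x =>
    hcc ▸ zero_at_infty x
  let mk : (y : ℕ → 𝕜) → Tendsto y atTop (𝓝 0) → ZeroAtInftyContinuousMap ℕ 𝕜 := fun y hy =>
    ⟨⟨y, continuous_of_discreteTopology⟩, hcc ▸ hy⟩
  have hle : ∀ (x : ZeroAtInftyContinuousMap ℕ 𝕜) n, ‖x n‖ ≤ ‖x‖ := fun x n =>
    x.toBCF.norm_coe_le_norm n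
  have hle' : ∀ (x : ZeroAtInftyContinuousMap ℕ 𝕜) (C : ℝ), 0 ≤ C → (∀ n, ‖x n‖ ≤ C) → ‖x‖ ≤ C :=
    fun x C hC h => (BoundedContinuousFunction.norm_le (f := x.toBCF) hC).2 h
  have hs : ∀ n : ℕ, Tendsto (Pi.single n (1 : 𝕜) : ℕ → 𝕜) atTop (𝓝 0) := fun n =>
    tendsto_const_nhds.congr' (by
      filter_upwards [eventually_gt_atTop n] with m hm
      rw [Pi.single_eq_of_ne hm.ne'])
  refine sp_main h0 h1 π (fun a b h => DFunLike.coe_injective h) hle ?_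
    (fun n => mk _ (hs n)) (fun n => rfl) (fun n => hle' _ _ zero_le_one fun m => ?_) ?_
  · intro x y C j hC h
    have hy : Tendsto y atTop (𝓝 0) := by
      refine squeeze_zero_norm h ?_
      change Tendsto (fun n => C * ‖x (n + j)‖) atTop (𝓝 0)
      simpa using (((hz x).comp (tendsto_add_atTop_nat j)).norm).const_mul C
    exact ⟨mk y hy, rfl, hle' _ _ (by positivity) fun n =>
      (h n).trans (mul_le_mul_of_nonneg_left (hle x _) hC)⟩
  · change ‖(Pi.single n (1 : 𝕜) : ℕ → 𝕜) m‖ ≤ 1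
    rw [Pi.single_apply]; split_ifs <;> simp
  · intro x
    rw [Metric.mem_closure_iff]
    intro ε hε
    obtain ⟨N, hN⟩ := eventually_atTop.1 ((hz x).norm.eventually
      (gt_mem_nhds (by simpa using half_pos hε : ‖(0 : 𝕜)‖ < ε / 2)))
    refine ⟨∑ i ∈ Finset.range N, x i • mk _ (hs i), Submodule.sum_mem _ fun i _ =>
      Submodule.smul_mem _ _ (Submodule.subset_span ⟨i, rfl⟩), ?_⟩
    rw [dist_eq_norm]
    refine lt_of_le_of_lt (hle' _ (ε / 2) (by positivity) fun n => ?_) (half_lt_self hε)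
    change ‖π (x - ∑ i ∈ Finset.range N, x i • mk _ (hs i)) n‖ ≤ _
    have e : ∀ i, π (mk _ (hs i)) = Pi.single i 1 := fun i => rfl
    simp only [map_sub, map_sum, map_smul, e, Pi.sub_apply, Finset.sum_apply, Pi.smul_apply,
      Pi.single_apply, smul_eq_mul, mul_ite, mul_one, mul_zero, Finset.sum_ite_eq,
      Finset.mem_range]
    split_ifs with hn
    · change ‖x n - x n‖ ≤ _
      simp; positivity
    · rw [sub_zero]; exact (hN n (not_lt.1 hn)).le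

/-- On the sequence space `X` with coordinates `co`, the backward shift with weights `w` is a
bounded operator with exact exponent `lam`. -/
def ShiftExact (𝕜 X : Type) [RCLike 𝕜] [NormedAddCommGroup X] [NormedSpace 𝕜 X]
    (co : X → ℕ → 𝕜) (w : ℕ → ℝ) (lam : ℝ) : Prop :=
  ∃ T : X →L[𝕜] X, (∀ x n, co (T x) n = (w n : 𝕜) * co x (n + 1)) ∧ ExactDC lam T

/-- The case `X = ℓ^p`. -/
def LpExact (𝕜 : Type) [RCLike 𝕜] (p : ℝ≥0∞) [Fact (1 ≤ p)] (w : ℕ → ℝ) (lam : ℝ) : Prop :=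
  ShiftExact 𝕜 (lp (fun _ : ℕ => 𝕜) p) (fun x n => x n) w lam

/-- The case `X = c₀`. -/
def C0Exact (𝕜 : Type) [RCLike 𝕜] (w : ℕ → ℝ) (lam : ℝ) : Prop :=
  ShiftExact 𝕜 (ZeroAtInftyContinuousMap ℕ 𝕜) (fun x n => x n) w lam

theorem result (lam : ℝ) (h0 : 0 < lam) (h1 : lam ≤ 1) :
    ∃ w : ℕ → ℝ, (∀ n, 0 < w n) ∧ BddAbove (Set.range w) ∧
      ∀ (𝕜 : Type) [RCLike 𝕜],
        (∀ (p : ℝ≥0∞) [Fact (1 ≤ p)], p ≠ ⊤ → LpExact 𝕜 p w lam) ∧ C0Exact 𝕜 w lam :=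
  ⟨wt lam, fun _ => Real.exp_pos _, ⟨3, by rintro _ ⟨n, rfl⟩; exact wt_le h0 h1 n⟩,
    fun _ _ => ⟨fun p _ hp => lp_case h0 h1 p hp, c0_case h0 h1⟩⟩

end Pool.Agent.Results.MP_39b2af_an.Yes
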